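import Pool.Agent.H.MP_5a0ad8_an.A

namespace Pool.Agent.Results.MP_5a0ad8_an.No

open MeasureTheory Set

/-- `sv A n` is the singular value `s_{n+1}(A)`: the distance from `A` to the operators of rank at
most `n`. -/
noncomputable def sv {H : Type} [NormedAddCommGroup H] [InnerProductSpace ℂ H] (A : H →L[ℂ] H)
    (n : ℕ) : ℝ :=
  sInf {r | ∃ F : H →L[ℂ] H, LinearMap.rank (F : H →ₗ[ℂ] H) ≤ n ∧ r = ‖A - F‖}

/-- `g y = ∫_0^1 {u/y}/(u/y) h(u) du` for almost every `y ∈ [0,1]`. -/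
def Rep (h g : ℝ → ℂ) : Prop :=
  ∀ᵐ y ∂volume.restrict (Icc (0 : ℝ) 1),
    g y = ∫ u in Icc (0 : ℝ) 1, ((Int.fract (u / y) / (u / y) : ℝ) : ℂ) * h u

/-- `T` is the integral operator of the problem and its singular values satisfy
`s_{n+1}(T) ≥ 1 / (24 (n + 2))` and are not summable. -/
structure NotTrace (T : Lp ℂ 2 (volume.restrict (Icc (0 : ℝ) 1)) →L[ℂ]
    Lp ℂ 2 (volume.restrict (Icc (0 : ℝ) 1))) : Prop where
  rep : ∀ h : Lp ℂ 2 (volume.restrict (Icc (0 : ℝ) 1)), Rep h (T h)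
  low : ∀ n : ℕ, 1 / (24 * ((n : ℝ) + 2)) ≤ sv T n
  div : ¬ Summable (sv T)

theorem result : ∃ T, NotTrace T := by
  obtain ⟨T, hT⟩ := Pool.Agent.H.MP_5a0ad8_an.exists_T
  have low : ∀ n : ℕ, 1 / (24 * ((n : ℝ) + 2)) ≤ sv T n := fun n =>
    le_csInf ⟨_, 0, by simp, rfl⟩ fun r ⟨F, h1, h2⟩ =>
      h2 ▸ Pool.Agent.H.MP_5a0ad8_an.lower T F hT n h1
  refine ⟨T, hT, low, fun h => Real.not_summable_natCast_inv ?_⟩
  have := (Summable.of_nonneg_of_le (fun n => by positivity) low h).mul_left 24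
  refine (summable_nat_add_iff 2).mp (this.congr fun n => ?_)
  push_cast
  field_simp

end Pool.Agent.Results.MP_5a0ad8_an.No
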